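import Pool.Agent.MP_5d9b3c_ag.P3G.Rep
import Pool.Agent.MP_5d9b3c_ag.P3T.Res
import Pool.Agent.MP_ee8c61_ag.M3RESID.Alg

/-!
Descent in a field with a continuous semilinear action.
-/

namespace Pool.Agent.MP_5d9b3c_ag.P3.GA

open MP_ee8c61_ag MP_ee8c61_ag.M3 MP_ee8c61_ag.M3RESID P3T P3G Finset
open Pool.Agent.MP_96693b_ag.RS (Loc LocOf)

noncomputable section

variable {F L : Type} [Field F] [Algebra F ℂ] [Field L] [Algebra ℂ L] (A : GA F L) {n : ℕ}

/-- The action on the field as a vector space. -/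
def sa : SA F L where
  a σ := (A.ρ σ).toAddMonoidHom
  one x := by simp
  mul σ τ x := by simp
  smul := A.smul
  cont := A.cont

@[simp] theorem sa_a (σ : Gm F) (x : L) : A.sa.a σ x = A.ρ σ x := rfl

theorem sa_fx {x : L} : A.sa.Fx x ↔ x ∈ A.fix := Iff.rfl

/-- The action on the vector fields. -/
def va (C : Co L n) : SA F (VF L) where
  a σ := (A.si σ).vfE.toAddMonoidHom
  one X := by rw [A.si_one]; rfl
  mul σ τ X := by rw [A.si_mul]; rfl
  smul σ := (A.si σ).vf_csmul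
  cont X := by
    obtain ⟨S, hS⟩ := (A.sa.prod A.sa).exists_df univ fun i => (C.z i, X (C.z i))
    refine ⟨S, fun σ h => sub_eq_zero.1 (C.span _ fun i => ?_)⟩
    obtain ⟨h1, h2⟩ := Prod.ext_iff.1 (hS i (mem_univ i) σ h)
    have := (A.si σ).vf_e X (C.z i)
    rw [si_e, si_e, show A.ρ σ (C.z i) = C.z i from h1, show A.ρ σ (X _) = _ from h2] at this
    exact sub_eq_zero.2 this

@[simp] theorem va_a (C : Co L n) (σ : Gm F) (X : VF L) : (A.va C).a σ X = (A.si σ).vf X := rfl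

theorem va_fx (C : Co L n) {X : VF L} : (A.va C).Fx X ↔ A.InvV X := invV_iff.symm

/-- The action on the coefficients of polynomials. -/
def mp (ι : Type) : SA F (MvPolynomial ι L) where
  a σ := (MvPolynomial.map (A.ρ σ : L →+* L)).toAddMonoidHom
  one p := MvPolynomial.ext _ _ fun e => by simp [MvPolynomial.coeff_map]
  mul σ τ p := MvPolynomial.ext _ _ fun e => by simp [MvPolynomial.coeff_map]
  smul σ c p := MvPolynomial.ext _ _ fun e => by simp [MvPolynomial.coeff_map, A.smul]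
  cont p := by
    obtain ⟨S, hS⟩ := A.sa.exists_df p.support fun e => p.coeff e
    refine ⟨S, fun σ h => MvPolynomial.ext _ _ fun e => ?_⟩
    by_cases he : e ∈ p.support
    · exact (MvPolynomial.coeff_map _ _ _).trans (hS e he σ h)
    · simp [MvPolynomial.coeff_map, MvPolynomial.notMem_support_iff.1 he]

theorem mp_a (ι : Type) (σ : Gm F) (p : MvPolynomial ι L) :
    (A.mp ι).a σ p = MvPolynomial.map (A.ρ σ : L →+* L) p := rfl

theorem mp_fx {ι : Type} {p : MvPolynomial ι L} : (A.mp ι).Fx p ↔ ∀ e, p.coeff e ∈ A.fix :=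
  ⟨fun h e σ => (MvPolynomial.coeff_map _ _ _).symm.trans (congrArg (MvPolynomial.coeff e) (h σ)),
    fun h σ => MvPolynomial.ext _ _ fun e => (MvPolynomial.coeff_map _ _ _).trans (h e σ)⟩

/-- The action on the coefficients of polynomials in one variable. -/
def pl : SA F (Polynomial L) where
  a σ := (Polynomial.mapRingHom (A.ρ σ : L →+* L)).toAddMonoidHom
  one p := Polynomial.ext fun e => by simp
  mul σ τ p := Polynomial.ext fun e => by simp
  smul σ c p := Polynomial.ext fun e => by simp [A.smul]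
  cont p := by
    obtain ⟨S, hS⟩ := A.sa.exists_df p.support fun e => p.coeff e
    refine ⟨S, fun σ h => Polynomial.ext fun e => ?_⟩
    by_cases he : e ∈ p.support
    · exact (Polynomial.coeff_map _ _).trans (hS e he σ h)
    · simp [Polynomial.notMem_support_iff.1 he]

theorem pl_a (σ : Gm F) (p : Polynomial L) : A.pl.a σ p = p.map (A.ρ σ : L →+* L) := rfl

theorem pl_fx {p : Polynomial L} : A.pl.Fx p ↔ ∀ e, p.coeff e ∈ A.fix :=
  ⟨fun h e σ => (Polynomial.coeff_map _ _).symm.trans (congrArg (Polynomial.coeff · e) (h σ)),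
    fun h σ => Polynomial.ext fun e => (Polynomial.coeff_map _ _).trans (h e σ)⟩

/-- The action on the numbers. -/
def num (F : Type) [Field F] [Algebra F ℂ] : GA F ℂ where
  ρ := MonoidHom.mk' (fun σ => σ.toRingEquiv) fun _ _ => rfl
  semi _ _ := rfl
  cont x := ⟨{x}, fun _ h => h x (mem_singleton_self x)⟩

@[simp] theorem num_ρ (σ : Gm F) (c : ℂ) : (num F).ρ σ c = σ c := rfl

theorem alg_fix (a : F) : algebraMap ℂ L (algebraMap F ℂ a) ∈ A.fix := fun σ => by
  rw [A.semi, σ.commutes]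

theorem cst_fix {c : ℂ} : algebraMap ℂ L c ∈ A.fix ↔ ∀ σ : Gm F, σ c = c :=
  forall_congr' fun σ => by rw [A.semi, (algebraMap ℂ L).injective.eq_iff]

/-- The norm is fixed. -/
theorem nrm {S : Finset ℂ} {T : Finset (Gm F)} (hT : Rep S T) {x : L} (h : A.sa.Df S x) :
    ∏ τ ∈ T, A.ρ τ x ∈ A.fix := fun σ => by
  rw [map_prod, ← hT.prod_mul (φ := fun τ => A.ρ τ x) (fun _ _ => h.ag) σ]
  simp

/-- The exact fields as a vector space. -/
def _root_.Pool.Agent.MP_5d9b3c_ag.P3G.ExS (d : Dv L) : Submodule ℂ (VF L) where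
  carrier := d.Ex
  add_mem' := add_mem
  zero_mem' := zero_mem _
  smul_mem' := fun c u hu => by
    have := d.cst_mem c hu
    rwa [algebraMap_smul] at this

variable {A}

theorem InvD.ex {d : Dv L} (h : A.InvD d) (σ : Gm F) {u : VF L} (hu : u ∈ d.Ex) :
    (A.si σ).vf u ∈ d.Ex := invD_iff.1 h σ ▸ (A.si σ).exa hu

theorem InvO.mem {o : DV L} (h : A.InvO o) (σ : Gm F) {m : ℤ} {g : L} :
    A.ρ σ g ∈ o.F m ↔ g ∈ o.F m := by rw [DV.mem_F, DV.mem_F, h, map_eq_zero]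

theorem InvV.fix {X : VF L} (h : A.InvV X) {g : L} (hg : g ∈ A.fix) : X g ∈ A.fix :=
  fun σ => by rw [h, hg]

theorem InvV.smul {X : VF L} (h : A.InvV X) {g : L} (hg : g ∈ A.fix) : A.InvV (g • X) :=
  fun σ x => by simp only [Derivation.smul_apply, smul_eq_mul, map_mul, h σ, hg σ]

theorem InvD.fix {d : Dv L} (h : A.InvD d) {X : VF L} (hX : A.InvV X) : d.δ X ∈ A.fix :=
  fun σ => by rw [← h, invV_iff.1 hX]

/-- The frame of fixed coordinates is invariant. -/
theorem invV_D {C : Co L n} (h : ∀ i, C.z i ∈ A.fix) (i : Fin n) : A.InvV (C.D i) :=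
  invV_iff.2 fun σ => sub_eq_zero.1 (C.span _ fun j => by
    have := (A.si σ).vf_e (C.D i) (C.z j)
    rw [si_e, si_e, h j σ, C.dual] at this
    rw [Derivation.sub_apply, this, C.dual]
    split_ifs <;> simp)

theorem co_fix {C : Co L n} (h : ∀ i, C.z i ∈ A.fix) (σ : Gm F) : (A.si σ).co C = C :=
  co_ext (fun i => h i σ) fun i => invV_iff.1 (invV_D h i) σ

theorem invD_dv {C : Co L n} (h : ∀ i, C.z i ∈ A.fix) : A.InvD C.dv :=
  invD_iff.2 fun σ => by rw [← SI.co_dv, co_fix h]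

theorem InvD.tw {d : Dv L} (h : A.InvD d) {g : L} (hg : g ∈ A.fix) {a : ℂ}
    (ha : ∀ σ : Gm F, σ a = a) : A.InvD (d.tw g a) :=
  invD_iff.2 fun σ => by rw [SI.dd_tw, invD_iff.1 h, si_e, hg, si_c, ha]

theorem FixL.mem {x : Loc L} (h : A.FixL x) (σ : Gm F) {g : L} : A.ρ σ g ∈ x.O ↔ g ∈ x.O := by
  conv_lhs => rw [← h σ]
  exact (A.si σ).e_mem_sa

theorem FixL.ev {x : Loc L} (h : A.FixL x) (σ : Gm F) (g : L) : x.ev (A.ρ σ g) = σ (x.ev g) := by
  conv_lhs => rw [← h σ]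
  exact (A.si σ).loc_e x g

theorem Stb.iff {S : Set L} (h : A.Stb S) (σ : Gm F) {g : L} : A.ρ σ g ∈ S ↔ g ∈ S :=
  ⟨fun h' => A.inv_ap σ g ▸ h σ⁻¹ _ h', h σ g⟩

theorem stb_of_fix {S : Set L} (h : ∀ s ∈ S, s ∈ A.fix) : A.Stb S :=
  fun σ s hs => (h s hs σ).symm ▸ hs

theorem Stb.span {S : Set L} (h : A.Stb S) : A.Stb (Submodule.span ℂ S) := fun σ s hs => by
  induction hs using Submodule.span_induction with
  | mem x hx => exact Submodule.subset_span (h σ x hx)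
  | zero => simp
  | add x y _ _ hx hy => rw [map_add]; exact add_mem hx hy
  | smul c x _ hx => rw [A.smul]; exact Submodule.smul_mem _ _ hx

theorem Stb.adjoin {S : Set L} (h : A.Stb S) : A.Stb (Algebra.adjoin ℂ S) := fun σ s hs => by
  induction hs using Algebra.adjoin_induction with
  | mem x hx => exact Algebra.subset_adjoin (h σ x hx)
  | algebraMap c => rw [A.semi]; exact Subalgebra.algebraMap_mem _ _
  | add x y _ _ hx hy => rw [map_add]; exact add_mem hx hy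
  | mul x y _ _ hx hy => rw [map_mul]; exact mul_mem hx hy

variable [Algebra.IsAlgebraic F ℂ]

theorem cst_fix_iff {c : ℂ} : algebraMap ℂ L c ∈ A.fix ↔ ∃ a : F, algebraMap F ℂ a = c :=
  A.cst_fix.trans fix_iff

/-- The value of a fixed function at a fixed point lies in `F`. -/
theorem FixL.ev_fix {x : Loc L} (h : A.FixL x) {g : L} (hg : g ∈ A.fix) :
    ∃ a : F, algebraMap F ℂ a = x.ev g := fix_iff.1 fun σ => by rw [← h.ev, hg]

variable (A)

theorem exists_nrm (x : L) : ∃ T : Finset (Gm F), 1 ∈ T ∧ ∏ τ ∈ T, A.ρ τ x ∈ A.fix := by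
  obtain ⟨S, hS⟩ := A.cont x
  obtain ⟨T, hT⟩ := exists_rep F S
  exact ⟨T, hT.one, A.nrm hT hS⟩

/-- An element of a stable monoid divides a fixed element. -/
theorem exists_mul {U : Submonoid L} (hU : A.Stb U) {s : L} (hs : s ∈ U) :
    ∃ t ∈ U, s * t ∈ A.fix := by
  classical
  obtain ⟨T, h1, h2⟩ := A.exists_nrm s
  refine ⟨∏ τ ∈ T.erase 1, A.ρ τ s, prod_mem fun τ _ => hU τ s hs, ?_⟩
  rwa [← mul_prod_erase T _ h1, map_one, RingAut.one_apply] at h2

/-- A fixed fraction is a fraction of fixed elements. -/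
theorem frac {B : Subalgebra ℂ L} (hB : A.Stb B) {a b : L} (ha : a ∈ B) (hb : b ∈ B) (b0 : b ≠ 0)
    (h : a / b ∈ A.fix) :
    ∃ a' ∈ B, ∃ b' ∈ B, a' ∈ A.fix ∧ b' ∈ A.fix ∧ b' ≠ 0 ∧ a / b = a' / b' := by
  obtain ⟨t, ⟨h1, h2⟩, h3⟩ := A.exists_mul (U := B.toSubmonoid ⊓ nonZeroDivisors L)
    (fun σ s hs => ⟨hB σ s hs.1, mem_nonZeroDivisors_of_ne_zero
      ((map_ne_zero _).2 (nonZeroDivisors.ne_zero hs.2))⟩) (s := b)
    ⟨hb, mem_nonZeroDivisors_of_ne_zero b0⟩
  have t0 := nonZeroDivisors.ne_zero h2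
  refine ⟨a * t, mul_mem ha h1, b * t, mul_mem hb h1, ?_, h3, mul_ne_zero b0 t0,
    (mul_div_mul_right a b t0).symm⟩
  rw [show a * t = a / b * (b * t) by field_simp]
  exact mul_mem h h3

/-- The conjugates of finitely many elements. -/
theorem hull (s : Finset L) :
    ∃ t : Finset L, s ⊆ t ∧ A.Stb t ∧ ∀ y ∈ t, ∃ σ, ∃ x ∈ s, y = A.ρ σ x := by
  classical
  obtain ⟨S, hS⟩ := A.sa.exists_df s id
  obtain ⟨T, hT⟩ := exists_rep F S
  refine ⟨image₂ (fun τ x => A.ρ τ x) T s, fun x hx => mem_image₂.2 ⟨1, hT.one, x, hx, by simp⟩,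
    fun σ y hy => ?_, fun y hy => ?_⟩
  · obtain ⟨τ, -, x, hx, rfl⟩ := mem_image₂.1 hy
    obtain ⟨υ, h1, h2⟩ := hT.ex (σ * τ)
    exact mem_image₂.2 ⟨υ, h1, x, hx, ((hS x hx).ag h2).trans (by simp)⟩
  · obtain ⟨τ, -, x, hx, rfl⟩ := mem_image₂.1 hy
    exact ⟨τ, x, hx, rfl⟩

/-- Finitely many fixed elements that span the conjugates of `s`. -/
theorem fix_span (s : Finset L) : ∃ t : Finset L, (∀ y ∈ t, y ∈ A.fix) ∧
    Submodule.span ℂ (t : Set L) = Submodule.span ℂ {y | ∃ σ, ∃ x ∈ s, y = A.ρ σ x} := by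
  obtain ⟨t, h1, h2, h3⟩ := A.hull s
  obtain ⟨t', h4, h5⟩ := A.sa.desc_fin (Submodule.span ℂ (t : Set L)) h2.span
  refine ⟨t', h4, h5.trans (congrArg _ (Set.ext fun y => ⟨h3 y, ?_⟩))⟩
  rintro ⟨σ, x, hx, rfl⟩
  exact h2 σ x (h1 hx)

/-- A stable subspace that contains `s` contains finitely many fixed elements that span `s`. -/
theorem fix_gen {W : Submodule ℂ L} (hW : A.Stb W) {s : Finset L} (hs : ∀ x ∈ s, x ∈ W) :
    ∃ t : Finset L, (∀ y ∈ t, y ∈ A.fix ∧ y ∈ W) ∧ ∀ x ∈ s, x ∈ Submodule.span ℂ (t : Set L) := by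
  obtain ⟨t, h1, h2⟩ := A.fix_span s
  refine ⟨t, fun y hy => ⟨h1 y hy, ?_⟩, fun x hx => h2 ▸ Submodule.subset_span ⟨1, x, hx, by simp⟩⟩
  refine Submodule.span_le.2 ?_ (h2 ▸ Submodule.subset_span hy)
  rintro _ ⟨σ, x, hx, rfl⟩
  exact hW σ x (hs x hx)

/-- A stable algebra of finite type has fixed generators. -/
theorem alg_gen {B : Subalgebra ℂ L} (hB : A.Stb B) (h : B.FG) :
    ∃ t : Finset L, (∀ y ∈ t, y ∈ A.fix) ∧ Algebra.adjoin ℂ (t : Set L) = B := by
  obtain ⟨s, rfl⟩ := h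
  obtain ⟨t, h1, h2⟩ := A.fix_gen (W := (Algebra.adjoin ℂ (s : Set L)).toSubmodule) hB (s := s)
    fun x hx => Algebra.subset_adjoin hx
  exact ⟨t, fun y hy => (h1 y hy).1, le_antisymm (Algebra.adjoin_le fun y hy => (h1 y hy).2)
    (Algebra.adjoin_le fun x hx => Algebra.span_le_adjoin ℂ _ (h2 x hx))⟩

/-- A stable module of finite type has fixed generators. -/
theorem mod_gen {B : Subalgebra ℂ L} {I : Submodule B L} (hI : A.Stb I) (h : I.FG) :
    ∃ t : Finset L, (∀ y ∈ t, y ∈ A.fix) ∧ Submodule.span B (t : Set L) = I := by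
  obtain ⟨s, rfl⟩ := h
  obtain ⟨t, h1, h2⟩ := A.fix_gen (W := (Submodule.span B (s : Set L)).restrictScalars ℂ) hI
    (s := s) fun x hx => Submodule.subset_span hx
  exact ⟨t, fun y hy => (h1 y hy).1, le_antisymm (Submodule.span_le.2 fun y hy => (h1 y hy).2)
    (Submodule.span_le.2 fun x hx => Submodule.span_le_restrictScalars ℂ B _ (h2 x hx))⟩

/-- A stable principal module over a local ring has a fixed generator. -/
theorem loc_gen (x : Loc L) {η : L} (η0 : η ≠ 0) (h : ∀ σ, ∀ g ∈ x.O, A.ρ σ (g * η) / η ∈ x.O) :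
    ∃ y ∈ A.fix, x.ev (y / η) ≠ 0 := by
  let W : Submodule ℂ L := x.O.toSubmodule.comap (LinearMap.mulRight ℂ η⁻¹)
  let W' : Submodule ℂ L := (x.m.restrictScalars ℂ).comap (LinearMap.mulRight ℂ η⁻¹)
  obtain ⟨y, h1, h2, h3⟩ := A.sa.exists_fx (W := W) (W' := W') (fun σ y hy => by
    have := h σ _ hy
    rwa [LinearMap.mulRight_apply, inv_mul_cancel_right₀ η0, div_eq_mul_inv] at this) (x := η)
    (show η * η⁻¹ ∈ x.O by rw [mul_inv_cancel₀ η0]; exact one_mem _) fun h => by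
      have : x.ev (η * η⁻¹) = 0 := h.2
      rw [mul_inv_cancel₀ η0, ← map_one (algebraMap ℂ L), x.ev_alg] at this
      exact one_ne_zero this
  exact ⟨y, h2, fun e => h3 ⟨h1, by rw [div_eq_mul_inv] at e; exact e⟩⟩

/-- The steps of a valuation as vector spaces. -/
def _root_.Pool.Agent.MP_5d9b3c_ag.P3G.FS (o : DV L) (m : ℤ) : Submodule ℂ L where
  carrier := o.F m
  add_mem' := add_mem
  zero_mem' := zero_mem _
  smul_mem' := fun c u hu => by
    have := o.F_mul (o.cst_mem c) hu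
    rwa [zero_add, ← Algebra.smul_def] at this

variable {A}

/-- Every value of an invariant valuation is the value of a fixed element. -/
theorem InvO.val {o : DV L} (h : A.InvO o) {g : L} (g0 : g ≠ 0) :
    ∃ y ∈ A.fix, y ≠ 0 ∧ o.v y = o.v g := by
  obtain ⟨y, h1, h2, h3⟩ := A.sa.exists_fx (W := FS o (o.v g)) (W' := FS o (o.v g + 1))
    (fun σ y hy => (h.mem σ).2 hy) (o.mem_F_self g) fun h => by
      have := Or.resolve_left h g0
      omega
  have y0 : y ≠ 0 := fun e => h3 (e ▸ zero_mem _)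
  have h4 := Or.resolve_left h1 y0
  exact ⟨y, h2, y0, by
    by_contra h5
    exact h3 (Or.inr (by omega))⟩

/-- Fixed residues lift to fixed elements. -/
theorem Cpt.lift {k : Type} [Field k] [Algebra ℂ k] {B : GA F k} {P : Pl L k} (h : A.Cpt B P)
    {g : L} (hg : g ∈ P.o.F 0) (hy : P.π g ∈ B.fix) :
    ∃ g' ∈ A.fix, g' - g ∈ P.o.F 1 ∧ g' ∈ P.o.F 0 ∧ P.π g' = P.π g := by
  have e : ∀ x ∈ P.o.F 0, P.π (x - g) = P.π x - P.π g := fun x hx => by
    rw [sub_eq_add_neg, P.add _ hx _ (neg_mem hg), pl_neg P hg, sub_eq_add_neg]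
  obtain ⟨g', h1, h2⟩ := A.sa.affine (FS P.o 1) (x := g) fun σ => by
    have h3 := (h.1.mem σ).2 hg
    exact (P.ker _ (sub_mem h3 hg)).1 (by rw [e _ h3, ← h.2 σ g hg, hy σ, sub_self])
  have h3 : g' ∈ P.o.F 0 := by simpa using add_mem (P.o.F_anti zero_le_one h2) hg
  exact ⟨g', h1, h2, h3, sub_eq_zero.1 ((e _ h3).symm.trans ((P.ker _ (sub_mem h3 hg)).2 h2))⟩

/-- A class that is stable modulo exact fields has an invariant representative. -/
theorem avg_ex (C : Co L n) {d : Dv L} {v : VF L} (h : ∀ σ, (A.si σ).vf v - v ∈ d.Ex) :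
    ∃ v', A.InvV v' ∧ v - v' ∈ d.Ex := by
  obtain ⟨v', h1, h2⟩ := (A.va C).affine (ExS d) h
  exact ⟨v', (A.va_fx C).1 h1, neg_sub v' v ▸ neg_mem (show v' - v ∈ d.Ex from h2)⟩

/-- An invariant field with a fixed eigenvalue has a fixed eigenvector. -/
theorem InvV.eig {X : VF L} (h : A.InvV X) {c y : L} (hc : c ∈ A.fix) (y0 : y ≠ 0)
    (e : X y = c * y) : ∃ y' ∈ A.fix, y' ≠ 0 ∧ X y' = c * y' := by
  obtain ⟨y', h1, h2, h3⟩ := A.sa.exists_fx
    (W := LinearMap.ker ((X : L →ₗ[ℂ] L) - LinearMap.mulLeft ℂ c)) (W' := ⊥) (fun σ y hy => by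
      have h1 : X y = c * y := sub_eq_zero.1 hy
      refine sub_eq_zero.2 ?_
      change X (A.ρ σ y) = c * A.ρ σ y
      rw [← h, h1, map_mul, hc]) (x := y) (sub_eq_zero.2 e) y0
  exact ⟨y', h2, h3, sub_eq_zero.1 h1⟩

variable (A)

/-- The fixed elements span the field. -/
theorem span_fix : Submodule.span ℂ (A.fix : Set L) = ⊤ :=
  eq_top_iff.2 (A.sa.desc_le (fun _ _ _ => trivial) fun _ _ h => Submodule.subset_span h)

/-- The fixed elements of a stable subspace span it. -/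
theorem span_fix' {W : Submodule ℂ L} (hW : A.Stb W) :
    Submodule.span ℂ {x | x ∈ W ∧ x ∈ A.fix} = W := A.sa.desc_eq W hW

end

end Pool.Agent.MP_5d9b3c_ag.P3.GA
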