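import Pool.Agent.MP_5d9b3c_ag.P3G.Kit
import Pool.Agent.MP_5d9b3c_ag.P3T.KK

/-!
The functional equation can be chosen invariant.
-/

namespace Pool.Agent.MP_5d9b3c_ag.P3G

open MP_ee8c61_ag MP_ee8c61_ag.M3 MP_ee8c61_ag.M3RESID P3 P3T MvPolynomial Finset
open H59 hiding pd
open H10 (IsBS act DiffOp)
open M3B1 (pd)

noncomputable section

section BS

variable {ι κ : Type}

theorem act_add (P P' : DiffOp ι κ) (s : κ → ℕ) (g : MvPolynomial ι ℂ) :
    act (P + P') s g = act P s g + act P' s g :=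
  Finsupp.sum_add_index' (fun _ => by simp) fun _ _ _ => by rw [map_add, add_mul]

theorem act_map (φ : MvPolynomial ι (MvPolynomial κ ℂ) →+ MvPolynomial ι (MvPolynomial κ ℂ))
    (P : DiffOp ι κ) (s : κ → ℕ) (g : MvPolynomial ι ℂ) :
    act (P.mapRange φ φ.map_zero) s g =
      P.sum fun L p => map (eval fun j => (s j : ℂ)) (φ p) * L.foldr (fun i h => pderiv i h) g :=
  Finsupp.sum_mapRange_index fun _ => by simp

variable [Fintype κ] {f : κ → MvPolynomial ι ℂ} {b b' : Polynomial ℂ}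

theorem bs_zero : IsBS f 0 := ⟨∅, fun _ => 0, by simp, by simp⟩

theorem bs_add (h : IsBS f b) (h' : IsBS f b') : IsBS f (b + b') := by
  classical
  obtain ⟨S, P, h1, h2⟩ := h
  obtain ⟨S', P', h1', h2'⟩ := h'
  refine ⟨S ∪ S', fun c => (if c ∈ S then P c else 0) + if c ∈ S' then P' c else 0,
    fun c hc => (mem_union.1 hc).elim (h1 c) (h1' c), fun s => ?_⟩
  have z : ∀ (p : Prop) [Decidable p] (P : DiffOp ι κ) g,
      act (if p then P else 0) s g = if p then act P s g else 0 := fun p _ P g => by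
    split_ifs <;> rfl
  simp only [act_add, sum_add_distrib, z, sum_ite_mem,
    union_inter_cancel_left, union_inter_cancel_right, ← h2, ← h2', Polynomial.eval_add, map_add,
    add_mul]

theorem bs_smul (h : IsBS f b) (a : ℂ) : IsBS f (a • b) := by
  obtain ⟨S, P, h1, h2⟩ := h
  refine ⟨S, fun c => (P c).mapRange (AddMonoidHom.mulLeft (C (C a))) (map_zero _), h1,
    fun s => ?_⟩
  rw [Polynomial.eval_smul, smul_eq_mul, map_mul, mul_assoc, h2, mul_sum]
  refine sum_congr rfl fun c _ => ?_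
  rw [act_map, act, Finsupp.mul_sum]
  simp [mul_assoc]

theorem bs_map (h : IsBS f b) (σ : ℂ →+* ℂ) (hf : ∀ j, map σ (f j) = f j) : IsBS f (b.map σ) := by
  obtain ⟨S, P, h1, h2⟩ := h
  refine ⟨S, fun c => (P c).mapRange (map (map σ)).toAddMonoidHom (map_zero _), h1, fun s => ?_⟩
  have := congrArg (map σ) (h2 s)
  have e : σ (b.eval (∑ j, (s j : ℂ))) = (b.map σ).eval (∑ j, (s j : ℂ)) := by
    rw [Polynomial.eval_map, ← Polynomial.eval₂_at_apply]
    simp
  simp only [map_mul, map_C, map_prod, map_pow, hf, e, map_sum] at this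
  rw [this]
  refine sum_congr rfl fun c _ => ?_
  rw [act_map, act, map_finsuppSum]
  refine Finsupp.sum_congr fun L hL => ?_
  clear hL
  have e1 : ∀ g, map σ (L.foldr (fun i h => pderiv i h) g) =
      L.foldr (fun i h => pderiv i h) (map σ g) := fun g => by
    induction L with
    | nil => rfl
    | cons i L ih => rw [List.foldr_cons, List.foldr_cons, ← pderiv_map, ih]
  have e2 : σ.comp (eval fun j => (s j : ℂ)) = (eval fun j => (s j : ℂ)).comp (map σ) := by
    ext <;> simp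
  rw [map_mul, e1, MvPolynomial.map_map, e2, ← MvPolynomial.map_map]
  simp [hf]

end BS

variable {F : Type} [Field F] [Algebra F ℂ] {N : ℕ} {f : Po N}

/-- The solutions of the two functional equations. -/
def BSs (f : Po N) : Submodule ℂ (Polynomial ℂ × (Fin N → PX N (KK N)) × PX N (KK N)) where
  carrier := {x | IsBS ![f] x.1 ∧ BSd f x.1 x.2.1 x.2.2}
  zero_mem' := ⟨bs_zero, ⟨0, fun _ _ => by simp⟩, fun _ => by simp, by simp⟩
  add_mem' := fun {x y} hx hy => by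
    obtain ⟨u, hu⟩ := hx.2.pol
    obtain ⟨u', hu'⟩ := hy.2.pol
    refine ⟨bs_add hx.1 hy.1, ⟨u + u', fun l e => ?_⟩, fun e => ?_, ?_⟩
    · have h0 : ip N f ∈ (ip N).range := ⟨f, rfl⟩
      have := add_mem (mul_mem (pow_mem h0 u') (hu l e)) (mul_mem (pow_mem h0 u) (hu' l e))
      rwa [show ∀ a c : KK N, ip N f ^ u' * (ip N f ^ u * a) + ip N f ^ u * (ip N f ^ u' * c) =
        ip N f ^ (u + u') * (a + c) from fun a c => by ring, ← coeff_add] at this
    · exact coeff_add e x.2.2 y.2.2 ▸ add_mem (hx.2.reg e) (hy.2.reg e)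
    · simp only [Prod.fst_add, Prod.snd_add, Pi.add_apply, map_add, hx.2.eq, hy.2.eq, mul_add,
        sum_add_distrib]
      ring
  smul_mem' := fun a x hx => by
    obtain ⟨u, hu⟩ := hx.2.pol
    refine ⟨bs_smul hx.1 a, ⟨u, fun l e => ?_⟩, fun e => ?_, ?_⟩
    · have := Subalgebra.smul_mem _ (hu l e) a
      rwa [← mul_smul_comm, ← coeff_smul] at this
    · exact coeff_smul e a x.2.2 ▸ Subalgebra.smul_mem _ (hx.2.reg e) a
    · simp only [Prod.smul_fst, Prod.smul_snd, Pi.smul_apply, map_smul, hx.2.eq, smul_add,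
        smul_sum, mul_smul_comm, Derivation.map_smul]

theorem bsd_map {b : Polynomial ℂ} {β : Fin N → PX N (KK N)} {Q : PX N (KK N)} (h : BSd f b β Q)
    {s : SI (KK N) (KK N)} (hs : ∀ l, s.e (xx N l) = xx N l) (hf : s.e (ip N f) = ip N f) :
    BSd f (b.map s.c) (fun l => map (s.e : KK N →+* KK N) (β l)) (map (s.e : KK N →+* KK N) Q) := by
  obtain ⟨u, hu⟩ := h.pol
  refine ⟨⟨u, fun l e => ?_⟩, fun e => ?_, ?_⟩
  · have := (SI.mem_ip hs).2 (hu l e)
    rwa [map_mul, map_pow, hf, ← RingEquiv.coe_toRingHom, ← coeff_map] at this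
  · rw [coeff_map]
    exact (SI.mem_ip hs).2 (h.reg e)
  have e1 : ∀ l P, map (s.e : KK N →+* KK N) (dpol (Option (Fin N)) (pd N l) P) =
      dpol _ (pd N l) (map (s.e : KK N →+* KK N) P) := fun l P => MvPolynomial.ext _ _ fun e => by
    rw [coeff_map, coeff_dpol, coeff_dpol, coeff_map]
    exact SI.e_pd hs l _
  have e2 : map (s.e : KK N →+* KK N) (Polynomial.aeval (X none : PX N (KK N)) b) =
      Polynomial.aeval (X none : PX N (KK N)) (b.map (s.c : ℂ →+* ℂ)) := by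
    rw [Polynomial.map_aeval_eq_aeval_map (φ := (s.c : ℂ →+* ℂ)) ?_ b, map_X]
    ext a : 1
    simp only [RingHom.comp_apply, MvPolynomial.algebraMap_apply, map_C,
      RingEquiv.coe_toRingHom, s.map]
  have := congrArg (map (s.e : KK N →+* KK N)) h.eq
  simpa only [e2, map_add, map_mul, map_sum, map_C, map_X, e1, RingEquiv.coe_toRingHom, hf,
    SI.e_pd hs, hs, map_inv₀] using this

/-- The invariant functional equation. -/
structure HypG (F : Type) [Field F] [Algebra F ℂ] (la : ℚ) (b : Polynomial ℂ)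
    (β : Fin N → PX N (KK N)) (Q : PX N (KK N)) : Prop where
  cb : ∀ e (σ : Gm F), σ (b.coeff e) = b.coeff e
  cβ : ∀ l e, coeff e (β l) ∈ (gaK F N).fix
  cQ : ∀ e, coeff e Q ∈ (gaK F N).fix
  ev : ∀ σ : Gm F, σ (b.eval (-(la : ℂ))) = b.eval (-(la : ℂ))
  v : (gaK F N).InvV (bf la β)
  v1 : (gaK F N).InvV (bf1 la β)

theorem ev0_fix (la : ℚ) {P : PX N (KK N)} (h : ∀ e, coeff e P ∈ (gaK F N).fix) :
    ev0 la P ∈ (gaK F N).fix := by
  rw [ev0, eval_eq]
  refine sum_mem fun e _ => mul_mem (h e) (prod_mem fun i _ => pow_mem ?_ _)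
  cases i
  · exact neg_mem (SubfieldClass.ratCast_mem _ _)
  · exact zero_mem _

theorem invV_sum {g : Fin N → KK N} (h : ∀ l, g l ∈ (gaK F N).fix) :
    (gaK F N).InvV (∑ l, g l • pd N l) :=
  ((gaK F N).va_fx (co N)).1 (SA.Fx.sum fun l _ =>
    ((gaK F N).va_fx (co N)).2 ((invV_pd l).smul (h l)))

theorem shyp [Algebra.IsAlgebraic F ℂ] (hf : ∀ σ : Gm F, map (σ : ℂ →+* ℂ) f = f) {la : ℚ}
    {b : Polynomial ℂ} {β : Fin N → PX N (KK N)} {Q : PX N (KK N)} (H : Hyp f la b β Q) :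
    ∃ b' β' Q', Hyp f la b' β' Q' ∧ HypG F la b' β' Q' := by
  obtain ⟨⟨b', β', Q'⟩, h1, h2, h3⟩ :=
    ((GA.num F).pl.prod ((((gaK F N).mp _).pi (Fin N)).prod ((gaK F N).mp _))).exists_fx
    (W := BSs f) (W' := LinearMap.ker (Polynomial.leval (-(la : ℂ)) ∘ₗ LinearMap.fst ℂ _ _))
    (fun σ x hx => ⟨bs_map hx.1 _ fun j => by fin_cases j; exact hf σ,
      bsd_map hx.2 (gaK_xx σ) ((gaK_ip σ f).trans (congrArg _ (hf σ)))⟩)
    (x := (b, β, Q)) ⟨H.isbs, H.bs⟩ H.nr
  have a1 : (GA.num F).pl.Fx b' := fun σ => congrArg (·.1) (h2 σ)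
  have a2 : ∀ l, ((gaK F N).mp _).Fx (β' l) := fun l σ => congrArg (·.2.1 l) (h2 σ)
  have a3 : ((gaK F N).mp _).Fx Q' := fun σ => congrArg (·.2.2) (h2 σ)
  refine ⟨b', β', Q', ⟨H.ne, h1.1, h1.2, h3⟩, (GA.num F).pl_fx.1 a1,
    fun l => (gaK F N).mp_fx.1 (a2 l), (gaK F N).mp_fx.1 a3, fun σ => ?_,
    invV_sum fun l => ev0_fix la ((gaK F N).mp_fx.1 (a2 l)),
    invV_sum fun l => ev0_fix la ((gaK F N).mp_fx.1 fun σ => ?_)⟩
  · rw [Polynomial.eval_eq_sum_range]
    exact (GA.num F).fix.sum_mem (fun e _ => mul_mem ((GA.num F).pl_fx.1 a1 e)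
      (pow_mem (neg_mem (SubfieldClass.ratCast_mem _ _)) _)) σ
  · rw [GA.mp_a, ← pderiv_map]
    exact congrArg _ (a2 l σ)

end

end Pool.Agent.MP_5d9b3c_ag.P3G
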