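import Pool.Agent.MP_5d9b3c_ag.P3.Gal

/-!
Traces, norms, averages and descent for continuous semilinear actions.
-/

namespace Pool.Agent.MP_5d9b3c_ag.P3G

open P3 Finset

noncomputable section

variable {F : Type} [Field F] [Algebra F ℂ]

/-- `T` represents the restrictions of the group elements to `S`. -/
structure Rep (S : Finset ℂ) (T : Finset (Gm F)) : Prop where
  one : 1 ∈ T
  ex : ∀ σ : Gm F, ∃ τ ∈ T, ∀ c ∈ S, τ c = σ c
  inj : ∀ σ ∈ T, ∀ τ ∈ T, (∀ c ∈ S, σ c = τ c) → σ = τ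

theorem exists_rep (F : Type) [Field F] [Algebra F ℂ] [Algebra.IsAlgebraic F ℂ] (S : Finset ℂ) :
    ∃ T : Finset (Gm F), Rep S T := by
  classical
  let r : Gm F → S → ℂ := fun σ c => σ c
  have hf : (Set.range r).Finite := by
    refine (Set.Finite.pi' fun c : S => (minpoly F (c : ℂ)).rootSet_finite ℂ).subset ?_
    rintro _ ⟨σ, rfl⟩ c
    have hi := (Algebra.IsAlgebraic.isAlgebraic (R := F) (c : ℂ)).isIntegral
    rw [Polynomial.mem_rootSet]
    exact ⟨minpoly.ne_zero hi, by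
      rw [show r σ c = σ c from rfl, Polynomial.aeval_algEquiv, AlgHom.comp_apply, minpoly.aeval,
        map_zero]⟩
  let g : (S → ℂ) → Gm F := fun y => if y = r 1 then 1 else Function.invFun r y
  have hg : ∀ σ, r (g (r σ)) = r σ := fun σ => by
    simp only [g]
    split_ifs with h
    · exact h.symm
    · exact Function.invFun_eq ⟨σ, rfl⟩
  refine ⟨hf.toFinset.image g, mem_image.2 ⟨r 1, by simp, if_pos rfl⟩, fun σ =>
    ⟨g (r σ), mem_image_of_mem _ (by simp), fun c hc => congrFun (hg σ) ⟨c, hc⟩⟩, ?_⟩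
  simp only [mem_image, Set.Finite.mem_toFinset]
  rintro _ ⟨_, ⟨σ, rfl⟩, rfl⟩ _ ⟨_, ⟨τ, rfl⟩, rfl⟩ h
  rw [← hg σ, show r (g (r σ)) = r (g (r τ)) from funext fun c => h c c.2, hg]

variable {S : Finset ℂ} {T : Finset (Gm F)}

theorem Rep.prod_mul {M : Type} [CommMonoid M] (h : Rep S T) {φ : Gm F → M}
    (hφ : ∀ σ τ : Gm F, (∀ c ∈ S, σ c = τ c) → φ σ = φ τ) (σ : Gm F) :
    ∏ τ ∈ T, φ (σ * τ) = ∏ τ ∈ T, φ τ := by
  classical
  choose m hm hm' using h.ex
  have hi : Set.InjOn (fun τ => m (σ * τ)) T := fun τ h1 τ' h2 e => h.inj _ h1 _ h2 fun c hc =>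
    σ.injective ((hm' (σ * τ) c hc).symm.trans
      ((congrArg (fun x : Gm F => x c) e).trans (hm' (σ * τ') c hc)))
  have e : T.image (fun τ => m (σ * τ)) = T := eq_of_subset_of_card_le
    (image_subset_iff.2 fun τ _ => hm _) (card_image_of_injOn hi).ge
  conv_rhs => rw [← e, prod_image hi]
  exact prod_congr rfl fun τ _ => hφ _ _ fun c hc => (hm' _ c hc).symm

theorem Rep.sum_mul {M : Type} [AddCommMonoid M] (h : Rep S T) {φ : Gm F → M}
    (hφ : ∀ σ τ : Gm F, (∀ c ∈ S, σ c = τ c) → φ σ = φ τ) (σ : Gm F) :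
    ∑ τ ∈ T, φ (σ * τ) = ∑ τ ∈ T, φ τ :=
  h.prod_mul (M := Multiplicative M) (φ := φ) hφ σ

theorem Rep.card_ne (h : Rep S T) : (T.card : ℂ) ≠ 0 :=
  Nat.cast_ne_zero.2 (card_ne_zero.2 ⟨1, h.one⟩)

/-- The numbers that are fixed by the group lie in `F`. -/
theorem fix_iff [Algebra.IsAlgebraic F ℂ] {c : ℂ} :
    (∀ σ : Gm F, σ c = c) ↔ ∃ a : F, algebraMap F ℂ a = c := by
  have : CharZero F := (algebraMap F ℂ).charZero
  have : IsAlgClosure F ℂ := ⟨inferInstance, inferInstance⟩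
  exact (InfiniteGalois.mem_range_algebraMap_iff_fixed c).symm

/-- There is a linear projection onto `F`. -/
theorem exists_proj (F : Type) [Field F] [Algebra F ℂ] : ∃ π : ℂ →ₗ[F] F, π 1 = 1 :=
  Module.Projective.exists_dual_eq_one F one_ne_zero

/-- A continuous semilinear action on a vector space. -/
structure SA (F M : Type) [Field F] [Algebra F ℂ] [AddCommGroup M] [Module ℂ M] where
  a : Gm F → M →+ M
  one : ∀ x, a 1 x = x
  mul : ∀ σ τ x, a (σ * τ) x = a σ (a τ x)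
  smul : ∀ σ (c : ℂ) x, a σ (c • x) = σ c • a σ x
  cont : ∀ x, ∃ S : Finset ℂ, ∀ σ : Gm F, (∀ c ∈ S, σ c = c) → a σ x = x

namespace SA

variable {M M' : Type} [AddCommGroup M] [Module ℂ M] [AddCommGroup M'] [Module ℂ M'] (B : SA F M)

/-- Fixed vectors. -/
def Fx (x : M) : Prop := ∀ σ, B.a σ x = x

/-- The vector is defined over the field generated by `S`. -/
def Df (S : Finset ℂ) (x : M) : Prop := ∀ σ : Gm F, (∀ c ∈ S, σ c = c) → B.a σ x = x

theorem inv_ap (σ : Gm F) (x : M) : B.a σ⁻¹ (B.a σ x) = x := by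
  rw [← B.mul, inv_mul_cancel, B.one]

theorem ap_inv (σ : Gm F) (x : M) : B.a σ (B.a σ⁻¹ x) = x := by
  rw [← B.mul, mul_inv_cancel, B.one]

theorem inj (σ : Gm F) : Function.Injective (B.a σ) :=
  Function.LeftInverse.injective (B.inv_ap σ)

theorem exists_df {ι : Type} (s : Finset ι) (x : ι → M) : ∃ S, ∀ i ∈ s, B.Df S (x i) := by
  classical
  choose S hS using B.cont
  exact ⟨s.biUnion fun i => S (x i), fun i hi σ h =>
    hS _ σ fun c hc => h c (mem_biUnion.2 ⟨i, hi, hc⟩)⟩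

variable {B}

theorem Df.mono {S' : Finset ℂ} {x : M} (h : B.Df S x) (e : S ⊆ S') : B.Df S' x :=
  fun σ h' => h σ fun c hc => h' c (e hc)

theorem Fx.df {x : M} (h : B.Fx x) (S : Finset ℂ) : B.Df S x := fun σ _ => h σ

theorem Df.ag {x : M} (h : B.Df S x) {σ τ : Gm F} (e : ∀ c ∈ S, σ c = τ c) :
    B.a σ x = B.a τ x := by
  have := h (τ⁻¹ * σ) fun c hc => by
    rw [AlgEquiv.mul_apply, e c hc, ← AlgEquiv.mul_apply, inv_mul_cancel, AlgEquiv.one_apply]
  conv_rhs => rw [← this, B.mul, B.ap_inv]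

/-- The trace is fixed. -/
theorem Df.tr {x : M} (h : B.Df S x) (hT : Rep S T) : B.Fx (∑ τ ∈ T, B.a τ x) := fun σ => by
  rw [map_sum, ← hT.sum_mul (φ := fun τ => B.a τ x) (fun _ _ => h.ag) σ]
  exact sum_congr rfl fun τ _ => (B.mul _ _ _).symm

theorem Fx.zero : B.Fx 0 := fun _ => map_zero _

theorem Fx.add {x y : M} (h : B.Fx x) (h' : B.Fx y) : B.Fx (x + y) := fun σ => by
  rw [map_add, h σ, h' σ]

theorem Fx.sub {x y : M} (h : B.Fx x) (h' : B.Fx y) : B.Fx (x - y) := fun σ => by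
  rw [map_sub, h σ, h' σ]

theorem Fx.smul {x : M} (h : B.Fx x) {c : ℂ} (hc : ∀ σ : Gm F, σ c = c) : B.Fx (c • x) :=
  fun σ => by rw [B.smul, h σ, hc σ]

theorem Fx.sum {ι : Type} {s : Finset ι} {x : ι → M} (h : ∀ i ∈ s, B.Fx (x i)) :
    B.Fx (∑ i ∈ s, x i) := fun σ => by
  rw [map_sum]
  exact sum_congr rfl fun i hi => h i hi σ

/-- The average is fixed. -/
theorem Df.avg {x : M} (h : B.Df S x) (hT : Rep S T) :
    B.Fx ((T.card : ℂ)⁻¹ • ∑ τ ∈ T, B.a τ x) :=
  (h.tr hT).smul fun σ => by rw [map_inv₀, map_natCast]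

theorem avg_const (hT : T.Nonempty) (x : M) : (T.card : ℂ)⁻¹ • ∑ _τ ∈ T, x = x := by
  rw [sum_const, ← Nat.cast_smul_eq_nsmul ℂ,
    inv_smul_smul₀ (Nat.cast_ne_zero.2 (card_ne_zero.2 hT))]

variable (B)

/-- The action on a product. -/
def prod (B' : SA F M') : SA F (M × M') where
  a σ := (B.a σ).prodMap (B'.a σ)
  one x := Prod.ext (B.one _) (B'.one _)
  mul σ τ x := Prod.ext (B.mul _ _ _) (B'.mul _ _ _)
  smul σ c x := Prod.ext (B.smul _ _ _) (B'.smul _ _ _)
  cont x := by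
    classical
    obtain ⟨S, hS⟩ := B.cont x.1
    obtain ⟨S', hS'⟩ := B'.cont x.2
    exact ⟨S ∪ S', fun σ h => Prod.ext (hS σ fun c hc => h c (mem_union_left _ hc))
      (hS' σ fun c hc => h c (mem_union_right _ hc))⟩

@[simp] theorem prod_a (B' : SA F M') (σ : Gm F) (x : M × M') :
    (B.prod B').a σ x = (B.a σ x.1, B'.a σ x.2) := rfl

/-- The action on tuples. -/
def pi (ι : Type) [Fintype ι] : SA F (ι → M) where
  a σ := (B.a σ).compLeft ι
  one x := funext fun _ => B.one _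
  mul σ τ x := funext fun _ => B.mul _ _ _
  smul σ c x := funext fun _ => B.smul _ _ _
  cont x := by
    obtain ⟨S, hS⟩ := B.exists_df univ x
    exact ⟨S, fun σ h => funext fun i => hS i (mem_univ i) σ h⟩

@[simp] theorem pi_a (ι : Type) [Fintype ι] (σ : Gm F) (x : ι → M) (i : ι) :
    (B.pi ι).a σ x i = B.a σ (x i) := rfl

/-- The action on the numbers. -/
def num (F : Type) [Field F] [Algebra F ℂ] : SA F ℂ where
  a σ := σ.toRingEquiv.toAddMonoidHom
  one _ := rfl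
  mul _ _ _ := rfl
  smul σ c x := map_mul σ c x
  cont x := ⟨{x}, fun _ h => h x (mem_singleton_self x)⟩

@[simp] theorem num_a (σ : Gm F) (c : ℂ) : (num F).a σ c = σ c := rfl

variable [Algebra.IsAlgebraic F ℂ]

theorem avg (x : M) : ∃ T : Finset (Gm F), 1 ∈ T ∧ B.Fx ((T.card : ℂ)⁻¹ • ∑ τ ∈ T, B.a τ x) := by
  obtain ⟨S, hS⟩ := B.cont x
  obtain ⟨T, hT⟩ := exists_rep F S
  exact ⟨T, hT.one, Df.avg hS hT⟩

/-- A stable affine subspace has a fixed point. -/
theorem affine (W : Submodule ℂ M) {x : M} (h : ∀ σ, B.a σ x - x ∈ W) :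
    ∃ y, B.Fx y ∧ y - x ∈ W := by
  obtain ⟨T, h1, h2⟩ := B.avg x
  refine ⟨_, h2, ?_⟩
  have := W.smul_mem (T.card : ℂ)⁻¹ (W.sum_mem fun τ (_ : τ ∈ T) => h τ)
  rwa [sum_sub_distrib, smul_sub, avg_const ⟨1, h1⟩] at this

/-- Descent: a stable subspace is spanned by its fixed vectors. -/
theorem desc (W : Submodule ℂ M) (hW : ∀ σ, ∀ x ∈ W, B.a σ x ∈ W) :
    W ≤ Submodule.span ℂ {x | x ∈ W ∧ B.Fx x} := fun x hx => by
  by_contra hn
  obtain ⟨φ, h1, h2⟩ := Submodule.exists_dual_map_eq_bot_of_notMem hn inferInstance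
  obtain ⟨S, hS⟩ := B.cont x
  obtain ⟨T, hT⟩ := exists_rep F S
  let E : Submonoid ℂ :=
    { carrier := {c | ∀ σ : Gm F, (∀ c ∈ S, σ c = c) → σ c = c}
      mul_mem' := fun ha hb σ h => by rw [map_mul, ha σ h, hb σ h]
      one_mem' := fun σ _ => map_one σ }
  let χ : T → E →* ℂ := fun τ => (τ.1 : ℂ →* ℂ).comp E.subtype
  have hχ : Function.Injective χ := fun σ τ e => Subtype.ext (hT.inj _ σ.2 _ τ.2 fun c hc =>
    DFunLike.congr_fun e ⟨c, fun _ h => h c hc⟩)
  refine h1 ?_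
  have := Fintype.linearIndependent_iff.1 ((linearIndependent_monoidHom E ℂ).comp χ hχ)
    (fun τ => φ (B.a τ x)) ?_ ⟨1, hT.one⟩
  · rwa [B.one] at this
  funext c
  have h3 : B.Df S ((c : ℂ) • x) := fun σ h => by rw [B.smul, hS σ h, c.2 σ h]
  have h4 : φ (∑ τ ∈ T, B.a τ ((c : ℂ) • x)) ∈ (⊥ : Submodule ℂ ℂ) :=
    h2 ▸ Submodule.mem_map_of_mem (Submodule.subset_span
      ⟨W.sum_mem fun τ _ => hW τ _ (W.smul_mem _ hx), h3.tr hT⟩)
  rw [Submodule.mem_bot, map_sum, ← sum_coe_sort] at h4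
  rw [Finset.sum_apply, Pi.zero_apply, ← h4]
  refine sum_congr rfl fun τ _ => ?_
  rw [B.smul, map_smul, Pi.smul_apply, smul_eq_mul, smul_eq_mul, mul_comm]
  rfl

theorem desc_eq (W : Submodule ℂ M) (hW : ∀ σ, ∀ x ∈ W, B.a σ x ∈ W) :
    Submodule.span ℂ {x | x ∈ W ∧ B.Fx x} = W :=
  le_antisymm (Submodule.span_le.2 fun _ h => h.1) (B.desc W hW)

/-- A property of a stable subspace that holds on the fixed vectors. -/
theorem desc_le {W W' : Submodule ℂ M} (hW : ∀ σ, ∀ x ∈ W, B.a σ x ∈ W)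
    (h : ∀ x ∈ W, B.Fx x → x ∈ W') : W ≤ W' :=
  (B.desc W hW).trans (Submodule.span_le.2 fun x hx => h x hx.1 hx.2)

/-- A stable subspace that is not contained in `W'` has a fixed vector outside of `W'`. -/
theorem exists_fx {W W' : Submodule ℂ M} (hW : ∀ σ, ∀ x ∈ W, B.a σ x ∈ W) {x : M} (hx : x ∈ W)
    (hx' : x ∉ W') : ∃ y ∈ W, B.Fx y ∧ y ∉ W' := by
  by_contra! hn
  exact hx' (B.desc_le hW hn hx)

/-- A stable line has a fixed generator. -/
theorem line {x : M} (x0 : x ≠ 0) (h : ∀ σ, ∃ c : ℂ, B.a σ x = c • x) :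
    ∃ c : ℂ, c ≠ 0 ∧ B.Fx (c • x) := by
  obtain ⟨y, h1, h2, h3⟩ := B.exists_fx (W := ℂ ∙ x) (W' := ⊥) (fun σ y hy => by
    obtain ⟨a, rfl⟩ := Submodule.mem_span_singleton.1 hy
    obtain ⟨c, e⟩ := h σ
    rw [B.smul, e]
    exact Submodule.smul_mem _ _ (Submodule.smul_mem _ _ (Submodule.mem_span_singleton_self x)))
    (Submodule.mem_span_singleton_self x) x0
  obtain ⟨c, rfl⟩ := Submodule.mem_span_singleton.1 h1
  exact ⟨c, fun e => h3 (by simp [e]), h2⟩

/-- A finite dimensional stable subspace is spanned by finitely many fixed vectors. -/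
theorem desc_fin (W : Submodule ℂ M) [FiniteDimensional ℂ W] (hW : ∀ σ, ∀ x ∈ W, B.a σ x ∈ W) :
    ∃ s : Finset M, (∀ x ∈ s, B.Fx x) ∧ Submodule.span ℂ (s : Set M) = W := by
  have h1 : W.FG := Module.Finite.iff_fg.1 inferInstance
  rw [← B.desc_eq W hW] at h1
  obtain ⟨s, h2, h3⟩ := (Submodule.fg_span_iff_fg_span_finset_subset _).1 h1
  exact ⟨s, fun x hx => (h2 hx).2, h3.symm.trans (B.desc_eq W hW)⟩

/-- The coefficients of a relation between fixed vectors can be projected to `F`. -/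
theorem proj {ι : Type} [Fintype ι] {v : ι → M} (hv : ∀ i, B.Fx (v i)) (π : ℂ →ₗ[F] F)
    {c : ι → ℂ} (h : ∑ i, c i • v i = 0) : ∑ i, algebraMap F ℂ (π (c i)) • v i = 0 := by
  have h1 := ((num F).pi ι).desc (LinearMap.ker (Fintype.linearCombination ℂ v)) (fun σ c hc => by
    have := congrArg (B.a σ) (LinearMap.mem_ker.1 hc)
    rw [Fintype.linearCombination_apply, map_sum, map_zero] at this
    rw [LinearMap.mem_ker, Fintype.linearCombination_apply, ← this]
    exact sum_congr rfl fun i _ => by rw [B.smul, hv i σ]; rfl) (x := c) h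
  suffices ∀ l : ℂ, ∑ i, algebraMap F ℂ (π (l * c i)) • v i = 0 by simpa using this 1
  clear h
  induction h1 using Submodule.span_induction with
  | mem c hc =>
    intro l
    choose a ha using fun i => fix_iff.1 fun σ : Gm F => congrFun (hc.2 σ) i
    have h2 := congrArg (algebraMap F ℂ (π l) • ·) (LinearMap.mem_ker.1 hc.1)
    simp only [Fintype.linearCombination_apply, smul_sum, smul_zero] at h2
    rw [← h2]
    refine sum_congr rfl fun i _ => ?_
    rw [← ha, mul_comm, ← Algebra.smul_def, map_smul, smul_eq_mul, map_mul, smul_smul, mul_comm]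
  | zero => simp
  | add x y _ _ h h' =>
    intro l
    simp only [Pi.add_apply, mul_add, map_add, add_smul, sum_add_distrib, h l, h' l, add_zero]
  | smul a x _ h =>
    intro l
    simpa only [Pi.smul_apply, smul_eq_mul, mul_assoc] using h (l * a)

/-- Fixed vectors that are independent over `F` are independent. -/
theorem indep {ι : Type} [Fintype ι] {v : ι → M} (hv : ∀ i, B.Fx (v i))
    (h : ∀ g : ι → F, ∑ i, algebraMap F ℂ (g i) • v i = 0 → ∀ i, g i = 0) :
    LinearIndependent ℂ v := Fintype.linearIndependent_iff.2 fun c hc i => by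
  by_contra hn
  obtain ⟨π, hπ⟩ := Module.Projective.exists_dual_eq_one F hn
  exact one_ne_zero (hπ.symm.trans (h _ (B.proj hv π hc) i))

/-- A fixed vector in the span of fixed vectors is a combination with coefficients in `F`. -/
theorem fx_comb {ι : Type} [Fintype ι] {v : ι → M} (hv : ∀ i, B.Fx (v i)) {c : ι → ℂ}
    (h : B.Fx (∑ i, c i • v i)) : ∃ g : ι → F, ∑ i, c i • v i = ∑ i, algebraMap F ℂ (g i) • v i := by
  obtain ⟨π, hπ⟩ := exists_proj F
  have := B.proj (ι := Option ι) (v := fun o => o.elim (-∑ i, c i • v i) v)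
    (fun o => by
      cases o
      · simpa using Fx.zero.sub h
      · exact hv _) π (c := fun o => o.elim 1 c) (by simp)
  exact ⟨fun i => π (c i), by simpa [hπ, neg_add_eq_zero] using this⟩

theorem fx_span {s : Set M} (hs : ∀ x ∈ s, B.Fx x) (W : AddSubgroup M)
    (hW : ∀ (a : F), ∀ x ∈ s, algebraMap F ℂ a • x ∈ W) {x : M} (hx : x ∈ Submodule.span ℂ s)
    (h : B.Fx x) : x ∈ W := by
  obtain ⟨n, c, v, rfl⟩ := Submodule.mem_span_set'.1 hx
  obtain ⟨g, e⟩ := B.fx_comb (fun i => hs _ (v i).2) h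
  rw [e]
  exact W.sum_mem fun i _ => hW _ _ (v i).2

end SA

end

end Pool.Agent.MP_5d9b3c_ag.P3G
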